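import Mathlib
import Pool.Agent.Helper21.IDP.Defs
import Pool.Agent.Helper21.IDP.Xi
import Pool.Agent.Helper21.IDP.V1
import Pool.Agent.Helper90.IDP_B

/-! Part (G) of the plan for MP_6b834f_an: integrated near-cancellation on one short arc. -/

open Filter Topology Real MeasureTheory Set

namespace IDP

lemma one_le_XX {r : ℝ} (hr0 : 0 ≤ r) (hr1 : r < 1) : 1 ≤ XX r := by
  have h1 := XX_sq hr1
  have h2 := XX_pos hr1
  have h3 : 1 ≤ XX r ^ 2 := by nlinarith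
  nlinarith

/-- the speed factor `e^ξ ξ'` -/
noncomputable def GG (r θ : ℝ) : ℂ :=
  Complex.exp (xc r θ) * (Complex.I / 2 * (xc r θ ^ 3 - xc r θ))

lemma GG_hasDerivAt {r : ℝ} (hr0 : 0 ≤ r) (hr1 : r < 1) (θ : ℝ) :
    HasDerivAt (GG r) (GG r θ * (Complex.I / 2 * (xc r θ ^ 3 - xc r θ) +
      Complex.I / 2 * (3 * xc r θ ^ 2 - 1))) θ := by
  have h1 := xc_hasDerivAt hr0 hr1 θ
  have h2 := h1.cexp
  have h3 := ((h1.pow 3).sub h1).const_mul (Complex.I / 2)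
  have h4 := h2.mul h3
  refine HasDerivAt.congr_deriv (f' := _) h4 ?_
  unfold GG
  simp only [Pi.pow_apply, Pi.sub_apply]
  push_cast
  ring

lemma norm_I_div_two : ‖(Complex.I / 2 : ℂ)‖ = 1 / 2 := by
  rw [norm_div, Complex.norm_I]; norm_num

lemma rate_bound {r : ℝ} (hr0 : 0 ≤ r) (hr1 : r < 1) (θ : ℝ) :
    ‖Complex.I / 2 * (xc r θ ^ 3 - xc r θ) + Complex.I / 2 * (3 * xc r θ ^ 2 - 1)‖
      ≤ 3 * XX r ^ 3 := by
  have hX := one_le_XX hr0 hr1
  have hx := xc_norm_le hr0 hr1 θ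
  have hx0 := norm_nonneg (xc r θ)
  have h1 : ‖xc r θ ^ 3 - xc r θ‖ ≤ XX r ^ 3 + XX r := by
    refine (norm_sub_le _ _).trans ?_
    rw [norm_pow]
    gcongr
  have h2 : ‖3 * xc r θ ^ 2 - 1‖ ≤ 3 * XX r ^ 2 + 1 := by
    refine (norm_sub_le _ _).trans ?_
    rw [norm_mul, norm_pow, norm_one]
    have : ‖(3 : ℂ)‖ = 3 := by norm_num
    rw [this]
    gcongr
  refine (norm_add_le _ _).trans ?_
  rw [norm_mul, norm_mul, norm_I_div_two]
  nlinarith [mul_nonneg (sub_nonneg.mpr hX) (sub_nonneg.mpr hX), pow_pos (XX_pos hr1) 2,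
    mul_nonneg (sub_nonneg.mpr hX) (pow_pos (XX_pos hr1) 2).le]

lemma GG_close {r : ℝ} (hr0 : 0 ≤ r) (hr1 : r < 1) {a b : ℝ}
    (hlen : (b - a) * (60 * XX r ^ 3) ≤ 1) {θ : ℝ} (hθ : θ ∈ Icc a b) :
    ‖GG r θ - GG r a‖ ≤ (6 / 100) * ‖GG r a‖ := by
  have hX := one_le_XX hr0 hr1
  have hX3 : 1 ≤ XX r ^ 3 := one_le_pow₀ hX
  set M : ℝ := 3 * XX r ^ 3 with hM
  have hM0 : 0 < M := by positivity
  have hMlen : M * (θ - a) ≤ 1 / 20 := by
    have : θ - a ≤ b - a := by linarith [hθ.2]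
    have h2 : M * (θ - a) ≤ M * (b - a) := mul_le_mul_of_nonneg_left this hM0.le
    rw [hM] at h2 ⊢
    linarith
  have key := norm_le_gronwallBound_of_norm_deriv_right_le (f := fun t => GG r t - GG r a)
    (f' := fun t => GG r t * (Complex.I / 2 * (xc r t ^ 3 - xc r t) +
      Complex.I / 2 * (3 * xc r t ^ 2 - 1))) (δ := 0) (K := M) (ε := M * ‖GG r a‖) (a := a) (b := b)
    (by
      apply ContinuousOn.sub _ continuousOn_const
      exact fun t _ => (GG_hasDerivAt hr0 hr1 t).continuousAt.continuousWithinAt)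
    (fun t _ => ((GG_hasDerivAt hr0 hr1 t).sub_const _).hasDerivWithinAt)
    (by simp)
    (by
      intro t _
      rw [norm_mul]
      have h1 := rate_bound hr0 hr1 t
      have h2 : ‖GG r t‖ ≤ ‖GG r t - GG r a‖ + ‖GG r a‖ := by
        have := norm_add_le (GG r t - GG r a) (GG r a)
        rwa [sub_add_cancel] at this
      calc ‖GG r t‖ * _ ≤ (‖GG r t - GG r a‖ + ‖GG r a‖) * M := by gcongr
        _ = _ := by ring) θ hθ
  refine key.trans ?_
  rw [gronwallBound_of_K_ne_0 hM0.ne']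
  have h5 : Real.exp (M * (θ - a)) - 1 ≤ 6 / 100 := by
    have h6 : Real.exp (M * (θ - a)) ≤ Real.exp (1 / 20) := Real.exp_le_exp.mpr hMlen
    have h7 : Real.exp (1 / 20) ≤ 106 / 100 := by
      have := Real.exp_bound' (x := 1 / 20) (by norm_num) (by norm_num) (n := 2) (by norm_num)
      refine this.trans ?_
      norm_num [Finset.sum_range_succ, Nat.factorial]
    linarith
  have h8 : M * ‖GG r a‖ / M = ‖GG r a‖ := by field_simp
  simp only [h8, zero_mul, zero_add]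
  have := norm_nonneg (GG r a)
  nlinarith

lemma norm_GG_ge {r : ℝ} (hr0 : 1 / 2 ≤ r) (hr1 : r < 1) (θ : ℝ) :
    1 / 20 ≤ ‖GG r θ‖ ∧ ‖Complex.I / 2 * (xc r θ ^ 3 - xc r θ)‖ ≤ ‖GG r θ‖ := by
  have hr0' : 0 ≤ r := by linarith
  have hz : ‖circleMap 0 r θ‖ < 1 := by rw [norm_circle hr0']; exact hr1
  have h1 := xi_sq hz
  have h2 := xi_norm_ge hz
  have h3 : xc r θ ^ 3 - xc r θ = circleMap 0 r θ * xc r θ ^ 3 := by
    unfold xc
    linear_combination xi (circleMap 0 r θ) * h1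
  have h4 : ‖Complex.exp (xc r θ)‖ = Real.exp (xc r θ).re := Complex.norm_exp _
  have h5 : 1 ≤ Real.exp (xc r θ).re := Real.one_le_exp (xc_re_pos hr0' hr1 θ).le
  have h6 : ‖Complex.I / 2 * (xc r θ ^ 3 - xc r θ)‖ = 1 / 2 * (r * ‖xc r θ‖ ^ 3) := by
    rw [norm_mul, norm_I_div_two, h3, norm_mul, norm_circle hr0', norm_pow]
  have h7 : 1 / 2 ≤ ‖xc r θ‖ := by
    have : 1 / 2 ≤ ‖xc r θ‖ ^ 2 := h2
    nlinarith [norm_nonneg (xc r θ)]
  have h8 : 1 / 4 ≤ ‖xc r θ‖ ^ 3 := by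
    have h9 : 1 / 2 ≤ ‖xc r θ‖ ^ 2 := h2
    have : ‖xc r θ‖ ^ 3 = ‖xc r θ‖ ^ 2 * ‖xc r θ‖ := by ring
    rw [this]; nlinarith
  have h10 : ‖GG r θ‖ = Real.exp (xc r θ).re * ‖Complex.I / 2 * (xc r θ ^ 3 - xc r θ)‖ := by
    unfold GG
    rw [norm_mul, h4]
  have h11 : 1 / 20 ≤ ‖Complex.I / 2 * (xc r θ ^ 3 - xc r θ)‖ := by
    rw [h6]; nlinarith
  constructor
  · rw [h10]; nlinarith
  · rw [h10]; nlinarith [norm_nonneg (Complex.I / 2 * (xc r θ ^ 3 - xc r θ))]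

lemma exp_neg_one_countable : {w : ℂ | Complex.exp w = -1}.Countable := by
  have h : {w : ℂ | Complex.exp w = -1} ⊆
      Set.range (fun n : ℤ => (π : ℂ) * Complex.I + n * (2 * π * Complex.I)) := by
    intro w hw
    have h1 : Complex.exp w = Complex.exp (π * Complex.I) := by
      rw [Complex.exp_pi_mul_I]; exact hw
    obtain ⟨n, hn⟩ := Complex.exp_eq_exp_iff_exists_int.mp h1
    exact ⟨n, hn.symm⟩
  exact (Set.countable_range _).mono h

/-- a path whose speed stays close to `γ` is injective. -/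
lemma path_injOn (g g' : ℝ → ℂ) (γ : ℂ) (a b : ℝ) (hγ : γ ≠ 0)
    (hg : ∀ t ∈ Icc a b, HasDerivWithinAt g (g' t) (Icc a b) t)
    (hg' : ∀ t ∈ Icc a b, ‖g' t - γ‖ ≤ ‖γ‖ / 2) : InjOn g (Icc a b) := by
  intro s hs t ht hst
  have hpos : 0 < ‖γ‖ := norm_pos_iff.mpr hγ
  have key := (convex_Icc a b).norm_image_sub_le_of_norm_hasDerivWithin_le
    (f := fun x => g x - (x : ℂ) * γ) (f' := fun x => g' x - γ) (C := ‖γ‖ / 2) (x := s) (y := t)
    (fun x hx => by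
      have h1 : HasDerivWithinAt (fun x : ℝ => (x : ℂ) * γ) γ (Icc a b) x := by
        have := ((Complex.ofRealCLM.hasDerivAt (x := x)).mul_const γ).hasDerivWithinAt
          (s := Icc a b)
        simpa using this
      exact (hg x hx).sub h1) hg' hs ht
  have h2 : g t - (t : ℂ) * γ - (g s - (s : ℂ) * γ) = ((s - t : ℝ) : ℂ) * γ := by
    rw [hst]; push_cast; ring
  rw [h2, norm_mul, Complex.norm_real, Real.norm_eq_abs, Real.norm_eq_abs, abs_sub_comm s t] at key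
  have h3 : |t - s| * ‖γ‖ ≤ 0 := by nlinarith [abs_nonneg (t - s)]
  have h4 : |t - s| = 0 := by
    by_contra h
    have : 0 < |t - s| := lt_of_le_of_ne (abs_nonneg _) (Ne.symm h)
    nlinarith [mul_pos this hpos]
  have := abs_eq_zero.mp h4
  linarith

lemma F_slit (D : Data) {j : ℤ} {ξ : ℂ} (h : ξ ∈ Om j) : D.F j ξ ∈ Complex.slitPlane := by
  have h1 := D.hF1 j ξ h
  rw [Complex.mem_slitPlane_iff]
  left
  have h2 := Complex.abs_re_le_norm (D.F j ξ - 1)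
  have h3 := abs_le.mp (h2.trans h1)
  simp only [Complex.sub_re, Complex.one_re] at h3
  linarith [h3.1]

/-- logarithmic derivative of `F` along the path -/
lemma logF_hasDerivAt (D : Data) {j : ℤ} {r θ : ℝ} (hr0 : 0 ≤ r) (hr1 : r < 1)
    (h : xc r θ ∈ Om j) :
    HasDerivAt (fun t => Complex.log (D.F j (xc r t)))
      (deriv (D.F j) (xc r θ) * (Complex.I / 2 * (xc r θ ^ 3 - xc r θ)) / D.F j (xc r θ)) θ := by
  have h1 : HasDerivAt (D.F j) (deriv (D.F j) (xc r θ)) (xc r θ) :=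
    ((D.hF0 j).differentiableAt ((isOpen_Om j).mem_nhds h)).hasDerivAt
  have h2 := h1.comp θ (xc_hasDerivAt hr0 hr1 θ)
  exact h2.clog_real (F_slit D h)

lemma logF_deriv_bound (D : Data) {j : ℤ} {r θ : ℝ} (h : xc r θ ∈ Om j) :
    ‖deriv (D.F j) (xc r θ) * (Complex.I / 2 * (xc r θ ^ 3 - xc r θ)) / D.F j (xc r θ)‖
      ≤ 4 / 31 * ‖Complex.I / 2 * (xc r θ ^ 3 - xc r θ)‖ := by
  have h1 := D.hF2 j _ h
  have h2 := (D.norm_F_bounds h).1
  rw [norm_div, norm_mul, div_le_iff₀ (by linarith)]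
  have h3 := norm_nonneg (Complex.I / 2 * (xc r θ ^ 3 - xc r θ))
  have h4 : 1 / 8 ≤ 4 / 31 * ‖D.F j (xc r θ)‖ := by linarith
  calc ‖deriv (D.F j) (xc r θ)‖ * ‖Complex.I / 2 * (xc r θ ^ 3 - xc r θ)‖
      ≤ (4 / 31 * ‖D.F j (xc r θ)‖) * ‖Complex.I / 2 * (xc r θ ^ 3 - xc r θ)‖ := by
        gcongr; exact h1.trans h4
    _ = _ := by ring

/-- (G) integrated near-cancellation on one short arc. -/
theorem nc_bound (D : Data) (u : ℂ × ℂ) (r : ℝ) (hr0 : 1 / 2 ≤ r) (hr1 : r < 1) (k : ℤ)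
    (a b : ℝ) (hab : a ≤ b) (hlen : (b - a) * (60 * XX r ^ 3) ≤ 1)
    (hSt : ∀ θ ∈ Set.Icc a b, xc r θ ∈ Data.St k)
    (hA1 : det2 (D.W k) u ≠ 0) (hA2 : det2 (D.W (k + 1)) u ≠ 0) :
    ∫⁻ θ in Set.Icc a b, ENNReal.ofReal
        (Real.log (max ‖D.E k (xc r θ) * D.F (k + 1) (xc r θ) * det2 (D.W k) u‖
            ‖(D.E k (xc r θ))⁻¹ * D.F k (xc r θ) * det2 (D.W (k + 1)) u‖)
          - Real.log ‖D.E k (xc r θ) * D.F (k + 1) (xc r θ) * det2 (D.W k) u
            + (D.E k (xc r θ))⁻¹ * D.F k (xc r θ) * det2 (D.W (k + 1)) u‖)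
      ≤ ENNReal.ofReal (100 * ((b - a) + 1)) := by
  have hr0' : 0 ≤ r := by linarith
  set A1 := det2 (D.W k) u with hA1def
  set A2 := det2 (D.W (k + 1)) u with hA2def
  have hN := D.hN
  have hOm : ∀ θ ∈ Icc a b, xc r θ ∈ Om k := fun θ h => Data.St_sub_Om k (hSt θ h)
  have hOm' : ∀ θ ∈ Icc a b, xc r θ ∈ Om (k + 1) := fun θ h => Data.St_sub_Om' k (hSt θ h)
  set g : ℝ → ℂ := fun θ => 2 * sgn k * D.N * Complex.exp (xc r θ)
    + (Complex.log (D.F (k + 1) (xc r θ)) - Complex.log (D.F k (xc r θ)))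
    + Complex.log (A1 / A2) with hg
  set g' : ℝ → ℂ := fun θ => 2 * sgn k * D.N * GG r θ
    + (deriv (D.F (k + 1)) (xc r θ) * (Complex.I / 2 * (xc r θ ^ 3 - xc r θ))
        / D.F (k + 1) (xc r θ)
      - deriv (D.F k) (xc r θ) * (Complex.I / 2 * (xc r θ ^ 3 - xc r θ)) / D.F k (xc r θ))
      with hg'
  set γ : ℂ := 2 * sgn k * D.N * GG r a with hγ
  have hnγ : ‖γ‖ = 2 * D.N * ‖GG r a‖ := by
    rw [hγ, norm_mul, norm_mul, norm_mul, Complex.norm_real, Complex.norm_real, Real.norm_eq_abs,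
      Real.norm_eq_abs, abs_sgn, abs_of_nonneg (by linarith : 0 ≤ D.N)]
    norm_num
  have hGa := norm_GG_ge hr0 hr1 a
  have hγ1 : 1 ≤ ‖γ‖ := by rw [hnγ]; nlinarith [hGa.1]
  have hγ0 : γ ≠ 0 := by
    intro h; rw [h, norm_zero] at hγ1; linarith
  have hder : ∀ t ∈ Icc a b, HasDerivWithinAt g (g' t) (Icc a b) t := by
    intro t ht
    have h1 := (xc_hasDerivAt hr0' hr1 t).cexp.const_mul (2 * sgn k * D.N : ℂ)
    have h2 := logF_hasDerivAt D hr0' hr1 (hOm' t ht)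
    have h3 := logF_hasDerivAt D hr0' hr1 (hOm t ht)
    exact ((h1.add (h2.sub h3)).add_const _).hasDerivWithinAt
  have hbd : ∀ t ∈ Icc a b, ‖g' t - γ‖ ≤ ‖γ‖ / 2 := by
    intro t ht
    have h1 := GG_close hr0' hr1 hlen ht
    have h2 := logF_deriv_bound D (hOm' t ht)
    have h3 := logF_deriv_bound D (hOm t ht)
    have h4 := (norm_GG_ge hr0 hr1 t).2
    have h5 : ‖GG r t‖ ≤ 106 / 100 * ‖GG r a‖ := by
      have := norm_add_le (GG r t - GG r a) (GG r a)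
      rw [sub_add_cancel] at this
      linarith
    have h6 : g' t - γ = 2 * sgn k * D.N * (GG r t - GG r a)
      + (deriv (D.F (k + 1)) (xc r t) * (Complex.I / 2 * (xc r t ^ 3 - xc r t))
          / D.F (k + 1) (xc r t)
        - deriv (D.F k) (xc r t) * (Complex.I / 2 * (xc r t ^ 3 - xc r t)) / D.F k (xc r t)) := by
      simp only [hg', hγ]; ring
    have h7 : ‖2 * sgn k * D.N * (GG r t - GG r a)‖ = 2 * D.N * ‖GG r t - GG r a‖ := by
      rw [norm_mul, norm_mul, norm_mul, Complex.norm_real, Complex.norm_real, Real.norm_eq_abs,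
        Real.norm_eq_abs, abs_sgn, abs_of_nonneg (by linarith : 0 ≤ D.N)]
      norm_num
    rw [h6]
    refine (norm_add_le _ _).trans ?_
    rw [h7]
    have h8 := norm_sub_le (deriv (D.F (k + 1)) (xc r t) * (Complex.I / 2 * (xc r t ^ 3 - xc r t))
          / D.F (k + 1) (xc r t))
        (deriv (D.F k) (xc r t) * (Complex.I / 2 * (xc r t ^ 3 - xc r t)) / D.F k (xc r t))
    rw [hnγ]
    have h9 : 2 * D.N * ‖GG r t - GG r a‖ ≤ 2 * D.N * (6 / 100 * ‖GG r a‖) := by gcongr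
    nlinarith [norm_nonneg (GG r a), mul_nonneg (sub_nonneg.mpr hN) (norm_nonneg (GG r a))]
  -- the exponential of g
  have hexp : ∀ t ∈ Icc a b, Complex.exp (g t) * ((D.E k (xc r t))⁻¹ * D.F k (xc r t) * A2)
      = D.E k (xc r t) * D.F (k + 1) (xc r t) * A1 := by
    intro t ht
    have e1 : D.F (k + 1) (xc r t) ≠ 0 := Complex.slitPlane_ne_zero (F_slit D (hOm' t ht))
    have e2 : D.F k (xc r t) ≠ 0 := Complex.slitPlane_ne_zero (F_slit D (hOm t ht))
    have e3 : A1 / A2 ≠ 0 := div_ne_zero hA1 hA2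
    simp only [hg]
    rw [Complex.exp_add, Complex.exp_add, Complex.exp_sub, Complex.exp_log e1, Complex.exp_log e2,
      Complex.exp_log e3]
    have e4 : Complex.exp (2 * sgn k * D.N * Complex.exp (xc r t))
        = D.E k (xc r t) * D.E k (xc r t) := by
      unfold Data.E
      rw [← Complex.exp_add]; congr 1; ring
    rw [e4]
    have e5 := D.E_ne k (xc r t)
    field_simp
  have hQ : ∀ t ∈ Icc a b, (D.E k (xc r t))⁻¹ * D.F k (xc r t) * A2 ≠ 0 := by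
    intro t ht
    have e2 : D.F k (xc r t) ≠ 0 := Complex.slitPlane_ne_zero (F_slit D (hOm t ht))
    exact mul_ne_zero (mul_ne_zero (inv_ne_zero (D.E_ne k _)) e2) hA2
  have hcount : ({t : ℝ | t ∈ Icc a b ∧ Complex.exp (g t) = -1}).Countable := by
    have h1 : MapsTo g {t : ℝ | t ∈ Icc a b ∧ Complex.exp (g t) = -1}
        {w : ℂ | Complex.exp w = -1} := fun t ht => ht.2
    exact h1.countable_of_injOn ((path_injOn g g' γ a b hγ0 hder hbd).mono fun t ht => ht.1)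
      exp_neg_one_countable
  have hmain := near_cancel g g' γ a b hab hγ0 hder hbd
  refine le_trans (le_of_eq ?_) (hmain.trans (ENNReal.ofReal_le_ofReal ?_))
  · apply lintegral_congr_ae
    have hnull : ∀ᵐ t ∂(volume.restrict (Icc a b)),
        t ∉ {t : ℝ | t ∈ Icc a b ∧ Complex.exp (g t) = -1} :=
      (measure_eq_zero_iff_ae_notMem.mp (hcount.measure_zero _))
    filter_upwards [hnull, ae_restrict_mem measurableSet_Icc] with t ht htI
    have h1 : Complex.exp (g t) ≠ -1 := fun h => ht ⟨htI, h⟩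
    have h2 : 1 + Complex.exp (g t) ≠ 0 := by
      intro h; exact h1 (by linear_combination h)
    rw [← hexp t htI]
    have h3 : Complex.exp (g t) * ((D.E k (xc r t))⁻¹ * D.F k (xc r t) * A2)
        + (D.E k (xc r t))⁻¹ * D.F k (xc r t) * A2
        = (1 + Complex.exp (g t)) * ((D.E k (xc r t))⁻¹ * D.F k (xc r t) * A2) := by ring
    rw [h3]
    have hQ' := norm_pos_iff.mpr (hQ t htI)
    rw [norm_mul (Complex.exp (g t)), norm_mul (1 + Complex.exp (g t)),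
      Real.log_mul (norm_pos_iff.mpr h2).ne' hQ'.ne']
    have h4 : max (‖Complex.exp (g t)‖ * ‖(D.E k (xc r t))⁻¹ * D.F k (xc r t) * A2‖)
        ‖(D.E k (xc r t))⁻¹ * D.F k (xc r t) * A2‖
        = max 1 ‖Complex.exp (g t)‖ * ‖(D.E k (xc r t))⁻¹ * D.F k (xc r t) * A2‖ := by
      rw [max_mul_of_nonneg _ _ hQ'.le, one_mul, max_comm]
    rw [h4, Real.log_mul (lt_of_lt_of_le one_pos (le_max_left _ _)).ne' hQ'.ne']
    congr 1
    ring
  · have : 1 / ‖γ‖ ≤ 1 := by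
      rw [div_le_one (by linarith)]; exact hγ1
    nlinarith

end IDP
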