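import Pool.Agent.Results.MP_77349f_al.StabilizerRetract

/-!
Vacuity check for `MP_77349f_al.StabilizerRetract`: every profinite group acting on one point is a
projective pile.
-/

universe u

open Pool.Agent.Results.MP_77349f_al.StabilizerRetract

namespace Pool.Agent.Helper54.VacPile

/-- A finite group acting on a point. -/
def pt (A : Type u) [Group A] [Finite A] : Pile.{u} :=
  Pile.ofFinite A PUnit.{u + 1} (fun x _ => x) (fun _ => rfl) (fun _ _ _ => rfl)

theorem pt_projective (P : Pile.{u}) [Subsingleton P.T] [Nonempty P.T] : P.IsProjective := by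
  intro A B φ α hBf hTf hepi hrig
  obtain ⟨t⟩ := ‹Nonempty P.T›
  obtain ⟨y, hy, hmap⟩ := hepi.2.2 (φ.onT t)
  have hst : ∀ g, φ.onG g ∈ A.stab (φ.onT t) := fun g => by
    rw [Pile.mem_stab, ← φ.map_act]
    exact congrArg _ (Subsingleton.elim _ _)
  have hbij := hrig.1 y
  rw [hy] at hbij
  -- the inverse on the stabilizer
  have hex : ∀ g : P.G, ∃ b ∈ B.stab y, α.onG b = φ.onG g := fun g => by
    obtain ⟨b, hb, hb'⟩ := hbij.2.2 (hst g)
    exact ⟨b, hb, hb'⟩
  choose f hf hf' using hex
  have hinj := hbij.2.1
  have hmul : ∀ g h, f (g * h) = f g * f h := fun g h =>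
    hinj (hf _) ((B.stab y).mul_mem (hf _) (hf _)) (by rw [map_mul, hf', hf', hf', map_mul])
  have hone : f 1 = 1 := hinj (hf _) (B.stab y).one_mem (by rw [map_one, hf', map_one])
  let F : P.G →* B.G := { toFun := f, map_one' := hone, map_mul' := hmul }
  have hcont : Continuous F := by
    haveI : Finite B.G := hBf
    have hd : DiscreteTopology B.G := inferInstance
    have hdA : DiscreteTopology A.G := by
      haveI : Finite A.G := Finite.of_surjective _ hepi.1
      infer_instance
    rw [continuous_discrete_rng]
    intro b
    by_cases hb : b ∈ B.stab y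
    · have : (F ⁻¹' {b}) = φ.onG ⁻¹' {α.onG b} := by
        ext g
        simp only [Set.mem_preimage, Set.mem_singleton_iff]
        constructor
        · intro h
          rw [← h]
          exact (hf' g).symm
        · intro h
          exact hinj (hf g) hb (by rw [hf', h])
      rw [this]
      exact (isOpen_discrete _).preimage φ.continuous_onG
    · have : (F ⁻¹' {b}) = ∅ := by
        ext g
        simp only [Set.mem_preimage, Set.mem_singleton_iff, Set.mem_empty_iff_false, iff_false]
        intro h
        exact hb (h ▸ hf g)
      rw [this]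
      exact isOpen_empty
  refine ⟨⟨F, fun _ => y, hcont, continuous_const, fun s g => ?_⟩, fun g => hf' g, fun s => ?_⟩
  · exact ((Pile.mem_stab (P := B)).1 (hf g)).symm
  · rw [hy]
    exact congrArg _ (Subsingleton.elim _ _)

/-- The group of two elements acting on one point is a projective pile, finitely generated. -/
example : (pt (Multiplicative (ZMod 2))).IsProjective :=
  haveI : Subsingleton (pt (Multiplicative (ZMod 2))).T := inferInstanceAs (Subsingleton PUnit)
  haveI : Nonempty (pt (Multiplicative (ZMod 2))).T := inferInstanceAs (Nonempty PUnit)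
  pt_projective _

end Pool.Agent.Helper54.VacPile
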